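import Pool.Agent.H112Z.GrowthMain

/-!
There are increasing functions `f₁ ≤ f₂` strictly between `n²` and `2ⁿ` such that the growth
function of every finitely presented semigroup is eventually at least `f₁` or eventually at most
`f₂`. There are only countably many growth functions of finitely presented semigroups; by Fekete's
lemma each is at least exponential or subexponential, and one subexponential function eventually
dominates countably many of them.
-/

namespace Pool.Agent.Results.MP_dd6e79_al.ANoOscillation

open Pool.Agent.H112Z.Growth Filter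

universe u

theorem result : ∃ f₁ f₂ : ℕ → ℕ, StrictMono f₁ ∧ StrictMono f₂ ∧
    Dom (fun n => n ^ 2) f₁ ∧ Dom f₂ (fun n => 2 ^ n) ∧
    ¬ Eqv f₁ (fun n => n ^ 2) ∧ ¬ Eqv f₂ (fun n => 2 ^ n) ∧ (∀ n, f₁ n ≤ f₂ n) ∧
    ∀ (S : Type u) [Semigroup S], FinPres S → ∀ Y : Finset S, Generates Y →
      (∀ᶠ n in atTop, f₁ n ≤ growth Y n) ∨ (∀ᶠ n in atTop, growth Y n ≤ f₂ n) :=
  main

end Pool.Agent.Results.MP_dd6e79_al.ANoOscillation
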